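import Pool.Agent.K1H54.NU.Stm2
import Pool.Agent.K1H63.NU.TREX

/-!
Project NU: the energy inequality before the blow-up time.
-/

open Set Filter Topology MeasureTheory
open scoped ENNReal NNReal

set_option autoImplicit false

namespace Pool.Agent.K1H29.NU

open Pool.Agent.Y5 Pool.Agent.Y5.D Pool.Agent.Y5.E Pool.Agent.K1H54.LO Pool.Agent.K1H54.L2
open Pool.Agent.K1H54.NU

variable (G : GS)

theorem D_nonneg (i : G.I ⊕ G.J) : 0 ≤ G.D i := by
  rcases i with i | j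
  · exact G.d0 i
  · exact G.d0' j

/-- the flux of energy out of the shells `≤ K` -/
theorem flux (x : G.I ⊕ G.J → ℝ) (K : ℕ) :
    ∑ i ∈ K1H63.NU.SS G K, x i * G.vf x i =
      -(G.c K * G.Z K x ^ 2 * G.Y (K + 1) x - G.r K * G.P K x * G.P (K + 1) x ^ 2) := by
  unfold K1H63.NU.SS
  rw [Finset.sum_disjSum]
  have e1 := K1H63.NU.shell_sum G.sh G.ty G.ρ (N := K)
    (K1H63.NU.fin_le G.sh G.ty G.fin K).toFinset
    (fun i => by simp) (fun i => x (Sum.inl i))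
    (fun n => (if n = 0 then 0 else G.c (n - 1) * G.Z (n - 1) x ^ 2) - G.c n * G.Z n x ^ 2
        - G.ε * G.c n * (G.Y n x * G.Z n x))
    (fun n => G.c n * (G.Z n x * (G.Y n x - G.Y (n + 1) x)) + G.ε * G.c n * G.Y n x ^ 2
        - G.r n * G.P n x ^ 2)
  have e2 := K1H63.NU.shell_sum G.sh' G.ty' G.ρ' (N := K)
    (K1H63.NU.fin_le G.sh' G.ty' G.fin' K).toFinset
    (fun i => by simp) (fun i => x (Sum.inr i))
    (fun n => G.r n * (G.P n x * G.Z n x + G.P (n + 1) x ^ 2)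
        - (if n = 0 then 0 else G.r (n - 1) * (G.P n x * G.P (n - 1) x)))
    (fun _ => 0)
  have e1' : ∑ i ∈ (K1H63.NU.fin_le G.sh G.ty G.fin K).toFinset,
      x (Sum.inl i) * G.vf x (Sum.inl i) = _ := e1
  have e2' : ∑ i ∈ (K1H63.NU.fin_le G.sh' G.ty' G.fin' K).toFinset,
      x (Sum.inr i) * G.vf x (Sum.inr i) = _ := e2
  rw [e1', e2', ← Finset.sum_add_distrib]
  clear e1 e2 e1' e2'
  induction K with
  | zero =>
    rw [Finset.sum_range_one]
    change ((if 0 = 0 then 0 else G.c (0 - 1) * G.Z (0 - 1) x ^ 2) - G.c 0 * G.Z 0 x ^ 2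
      - G.ε * G.c 0 * (G.Y 0 x * G.Z 0 x)) * G.Y 0 x
      + (G.c 0 * (G.Z 0 x * (G.Y 0 x - G.Y (0 + 1) x)) + G.ε * G.c 0 * G.Y 0 x ^ 2
      - G.r 0 * G.P 0 x ^ 2) * G.Z 0 x
      + ((G.r 0 * (G.P 0 x * G.Z 0 x + G.P (0 + 1) x ^ 2)
      - (if 0 = 0 then 0 else G.r (0 - 1) * (G.P 0 x * G.P (0 - 1) x))) * G.P 0 x + 0 * _) = _
    simp only [if_true]
    ring
  | succ K ih =>
    rw [Finset.sum_range_succ, ih]
    change _ + (((if K + 1 = 0 then 0 else G.c (K + 1 - 1) * G.Z (K + 1 - 1) x ^ 2)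
      - G.c (K + 1) * G.Z (K + 1) x ^ 2
      - G.ε * G.c (K + 1) * (G.Y (K + 1) x * G.Z (K + 1) x)) * G.Y (K + 1) x
      + (G.c (K + 1) * (G.Z (K + 1) x * (G.Y (K + 1) x - G.Y (K + 1 + 1) x))
      + G.ε * G.c (K + 1) * G.Y (K + 1) x ^ 2
      - G.r (K + 1) * G.P (K + 1) x ^ 2) * G.Z (K + 1) x
      + ((G.r (K + 1) * (G.P (K + 1) x * G.Z (K + 1) x + G.P (K + 1 + 1) x ^ 2)
      - (if K + 1 = 0 then 0 else G.r (K + 1 - 1) * (G.P (K + 1) x * G.P (K + 1 - 1) x)))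
        * G.P (K + 1) x + 0 * _)) = _
    rw [if_neg (Nat.succ_ne_zero K), if_neg (Nat.succ_ne_zero K), Nat.add_sub_cancel]
    ring

theorem SS_mono : Monotone (K1H63.NU.SS G) := by
  intro a b hab i hi
  rw [K1H63.NU.mem_SS] at hi ⊢
  exact hi.trans hab

theorem SS_tendsto : Tendsto (K1H63.NU.SS G) atTop atTop :=
  tendsto_atTop_finset_of_monotone (SS_mono G) fun i => ⟨G.s i, (K1H63.NU.mem_SS G).2 le_rfl⟩

theorem en_tendsto (x : G.I ⊕ G.J → ℝ) :
    Tendsto (fun m => ENNReal.ofReal (∑ i ∈ K1H63.NU.SS G m, x i ^ 2)) atTop (𝓝 (G.en x)) := by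
  have h := (ENNReal.summable (f := fun i => ENNReal.ofReal (x i ^ 2))).hasSum.comp (SS_tendsto G)
  refine h.congr fun m => ?_
  rw [ENNReal.ofReal_sum_of_nonneg fun i _ => sq_nonneg _]
  rfl

theorem ds_tendsto (x : G.I ⊕ G.J → ℝ) :
    Tendsto (fun m => ENNReal.ofReal (∑ i ∈ K1H63.NU.SS G m, G.D i * x i ^ 2)) atTop
      (𝓝 (G.ds x)) := by
  have h := (ENNReal.summable (f := fun i => ENNReal.ofReal (G.D i * x i ^ 2))).hasSum.comp
    (SS_tendsto G)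
  refine h.congr fun m => ?_
  rw [ENNReal.ofReal_sum_of_nonneg fun i _ => mul_nonneg (D_nonneg G i) (sq_nonneg _)]
  rfl

/-- Cauchy-Schwarz for the amplitude of a flat packet -/
theorem ap_sq_le {I : Type} (sh : I → ℕ) (ty : I → Bool) (ρ : ℕ → ℕ) {b : Bool} {n : ℕ}
    (hf : {i | sh i = n ∧ ty i = b}.Finite) (hc : {i | sh i = n ∧ ty i = b}.ncard = ρ n)
    (z : I → ℝ) : ap sh ty ρ b n z ^ 2 ≤ ∑ i ∈ hf.toFinset, z i ^ 2 := by
  have h1 : ap sh ty ρ b n z = ∑ i ∈ hf.toFinset, fl sh ty ρ b n i * z i := by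
    unfold ap
    refine tsum_eq_sum fun i hi => ?_
    have hn : ¬ (sh i = n ∧ ty i = b) := fun h => hi (hf.mem_toFinset.2 h)
    unfold fl
    rw [if_neg hn, zero_mul]
  rw [h1]
  refine (Finset.sum_mul_sq_le_sq_mul_sq _ _ _).trans ?_
  have h2 : ∑ i ∈ hf.toFinset, fl sh ty ρ b n i ^ 2 ≤ 1 := by
    have h3 : ∀ i ∈ hf.toFinset, fl sh ty ρ b n i ^ 2 = ((ρ n : ℝ))⁻¹ := by
      intro i hi
      have hn : sh i = n ∧ ty i = b := hf.mem_toFinset.1 hi
      unfold fl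
      rw [if_pos hn, inv_pow, Real.sq_sqrt (Nat.cast_nonneg _)]
    rw [Finset.sum_congr rfl h3, Finset.sum_const, nsmul_eq_mul,
      ← Set.ncard_eq_toFinset_card _ hf, hc]
    exact mul_inv_le_one
  calc _ ≤ 1 * ∑ i ∈ hf.toFinset, z i ^ 2 :=
        mul_le_mul_of_nonneg_right h2 (Finset.sum_nonneg fun i _ => sq_nonneg _)
    _ = _ := one_mul _

section sub

variable {G}
variable {n₀ : ℕ}

open Classical in
/-- finite sums of the squares of the extended amplitudes -/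
theorem sum_ext_le (z : Sub G.sh n₀ → ℝ) (hz : Summable fun a => z a ^ 2) (F : Finset G.I) :
    ∑ i ∈ F, K1H54.NU.ext (G := G) n₀ z (Sum.inl i) ^ 2 ≤ ∑' a, z a ^ 2 := by
  have h1 : ∑ i ∈ F, K1H54.NU.ext (G := G) n₀ z (Sum.inl i) ^ 2 =
      ∑ a ∈ F.subtype (fun i => n₀ ≤ G.sh i), z a ^ 2 := by
    have h2 := Finset.sum_subtype_eq_sum_filter (s := F) (p := fun i => n₀ ≤ G.sh i)
      (fun i => K1H54.NU.ext (G := G) n₀ z (Sum.inl i) ^ 2)
    have h3 : ∑ i ∈ F with n₀ ≤ G.sh i, K1H54.NU.ext (G := G) n₀ z (Sum.inl i) ^ 2 =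
        ∑ i ∈ F, K1H54.NU.ext (G := G) n₀ z (Sum.inl i) ^ 2 := by
      refine Finset.sum_filter_of_ne fun i _ hi => ?_
      by_contra hn
      refine hi ?_
      show (if h : n₀ ≤ G.sh i then z ⟨i, h⟩ else 0) ^ 2 = 0
      rw [dif_neg hn]
      norm_num
    rw [← h3, ← h2]
    refine Finset.sum_congr rfl fun a _ => ?_
    change (if h : n₀ ≤ G.sh a then z ⟨a, h⟩ else 0) ^ 2 = _
    rw [dif_pos a.2]
  rw [h1]
  exact hz.sum_le_tsum _ fun a _ => sq_nonneg _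

/-- a shell of the extended amplitudes, with weight -/
theorem sum_ext_shell {lam : ℝ} (z : Sub G.sh n₀ → ℝ)
    (hz : Sk (fun i : Sub G.sh n₀ => lam ^ (G.sh i - n₀)) 1 z) (n : ℕ) (F : Finset G.I)
    (hF : ∀ i ∈ F, G.sh i = n) :
    (lam ^ (n - n₀)) ^ 2 * ∑ i ∈ F, K1H54.NU.ext (G := G) n₀ z (Sum.inl i) ^ 2 ≤
      nk (fun i : Sub G.sh n₀ => lam ^ (G.sh i - n₀)) 1 z := by
  have h := sum_ext_le (G := G) (fun a : Sub G.sh n₀ => (lam ^ (G.sh a - n₀)) ^ 1 * z a) hz F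
  refine le_trans (le_of_eq ?_) h
  rw [Finset.mul_sum]
  refine Finset.sum_congr rfl fun i hi => ?_
  unfold K1H54.NU.ext
  by_cases hn : n₀ ≤ G.sh i
  · simp only [dif_pos hn]
    have e : lam ^ (n - n₀) = lam ^ (G.sh i - n₀) := by rw [hF i hi]
    rw [e]
    ring
  · simp only [dif_neg hn]
    ring

end sub

theorem t_EXC (h : S_EXA) : S_EXC := by
  intro G lam c₀ n₀ T z hl hc0 hc _ hT hz hr
  have hode := h G lam c₀ n₀ T z hl hc0 hc hT hz
  set x : ℝ → G.I ⊕ G.J → ℝ := fun τ => K1H54.NU.ext n₀ fun a => z a τ with hx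
  have hJ : ∀ τ j, x τ (Sum.inr j) = 0 := fun τ j => rfl
  have hSk0 : ∀ τ ∈ Ico 0 T, Summable fun a : Sub G.sh n₀ => z a τ ^ 2 := by
    intro τ hτ
    obtain ⟨M, hM⟩ := hr 0 τ hτ.2
    refine ((hM τ ⟨hτ.1, le_rfl⟩).1).congr fun a => ?_
    rw [pow_zero, one_mul]
  -- bound of the finite sums of squares
  have hE : ∀ τ ∈ Ico 0 T, ∀ m, ∑ i ∈ K1H63.NU.SS G m, x τ i ^ 2 ≤
      ∑' a : Sub G.sh n₀, z a τ ^ 2 := by
    intro τ hτ m
    unfold K1H63.NU.SS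
    rw [Finset.sum_disjSum]
    have h2 : ∑ j ∈ (K1H63.NU.fin_le G.sh' G.ty' G.fin' m).toFinset,
        x τ (Sum.inr j) ^ 2 = 0 :=
      Finset.sum_eq_zero fun j _ => by rw [hJ]; norm_num
    rw [h2, add_zero]
    exact sum_ext_le _ (hSk0 τ hτ) _
  refine ⟨?_, ?_⟩
  · have h1 : G.en (x 0) ≤ ENNReal.ofReal (∑' a : Sub G.sh n₀, z a 0 ^ 2) :=
      le_of_tendsto' (en_tendsto G (x 0)) fun m =>
        ENNReal.ofReal_le_ofReal (hE 0 ⟨le_rfl, hT⟩ m)
    exact ne_top_of_le_ne_top ENNReal.ofReal_ne_top h1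
  intro s hs t ht
  have hst : s ≤ t := ht.1
  have ht0 : 0 ≤ t := hs.1.trans hst
  have hsub : Icc s t ⊆ Ico 0 T := fun u hu => ⟨hs.1.trans hu.1, lt_of_le_of_lt hu.2 ht.2⟩
  obtain ⟨M0, hM0⟩ := hr 0 t ht.2
  obtain ⟨M1, hM1⟩ := hr 1 t ht.2
  have hM0' : ∀ τ ∈ Icc s t, ∑' a : Sub G.sh n₀, z a τ ^ 2 ≤ M0 := by
    intro τ hτ
    have h1 := (hM0 τ ⟨hs.1.trans hτ.1, hτ.2⟩).2
    refine le_trans (le_of_eq ?_) h1
    unfold nk
    refine tsum_congr fun a => ?_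
    rw [pow_zero, one_mul]
  have hM0n : 0 ≤ M0 := (tsum_nonneg fun a => sq_nonneg _).trans (hM0' s ⟨le_rfl, hst⟩)
  have hM1n : 0 ≤ M1 := by
    have h1 := (hM1 s ⟨hs.1, hst⟩).2
    refine le_trans ?_ h1
    unfold nk
    exact tsum_nonneg fun a => sq_nonneg _
  have hlam0 : 0 < lam := by linarith
  -- the flux
  have hP : ∀ τ n, G.P n (x τ) = 0 := by
    intro τ n
    unfold GS.P ap
    refine (tsum_congr fun j => ?_).trans tsum_zero
    show _ * x τ (Sum.inr j) = 0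
    rw [hJ, mul_zero]
  have hZ : ∀ τ ∈ Icc s t, ∀ m, n₀ ≤ m → (lam ^ (m - n₀)) ^ 2 * G.Z m (x τ) ^ 2 ≤ M1 := by
    intro τ hτ m hm
    have h1 := ap_sq_le G.sh G.ty G.ρ (G.fin m false) (G.card m false)
      (fun i => x τ (Sum.inl i))
    have h2 := sum_ext_shell (G := G) (fun a => z a τ)
      (hM1 τ ⟨hs.1.trans hτ.1, hτ.2⟩).1 m (G.fin m false).toFinset fun i hi =>
        (((G.fin m false).mem_toFinset).1 hi).1
    calc (lam ^ (m - n₀)) ^ 2 * G.Z m (x τ) ^ 2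
        ≤ (lam ^ (m - n₀)) ^ 2 * ∑ i ∈ (G.fin m false).toFinset, x τ (Sum.inl i) ^ 2 :=
          mul_le_mul_of_nonneg_left h1 (sq_nonneg _)
      _ ≤ _ := h2
      _ ≤ M1 := (hM1 τ ⟨hs.1.trans hτ.1, hτ.2⟩).2
  have hY : ∀ τ ∈ Icc s t, ∀ m, |G.Y m (x τ)| ≤ √M0 := by
    intro τ hτ m
    have h1 := ap_sq_le G.sh G.ty G.ρ (G.fin m true) (G.card m true)
      (fun i => x τ (Sum.inl i))
    have h2 : G.Y m (x τ) ^ 2 ≤ M0 :=
      h1.trans ((sum_ext_le (G := G) (fun a => z a τ) (hSk0 τ (hsub hτ)) _).trans (hM0' τ hτ))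
    rw [← Real.sqrt_sq_eq_abs]
    exact Real.sqrt_le_sqrt h2
  set C : ℝ := c₀ * lam ^ (2 * n₀) * M1 * √M0 with hC
  have hfl : ∀ τ ∈ Icc s t, ∀ m, n₀ ≤ m →
      |G.c m * G.Z m (x τ) ^ 2 * G.Y (m + 1) (x τ)| ≤ C * (lam⁻¹) ^ m := by
    intro τ hτ m hm
    have h1 := hZ τ hτ m hm
    have h2 := hY τ hτ (m + 1)
    rw [abs_mul, abs_mul, abs_of_nonneg (G.c0 m), abs_of_nonneg (sq_nonneg (G.Z m (x τ))), hc m]
    have e1 : (lam ^ (m - n₀)) ^ 2 * lam ^ (2 * n₀) = lam ^ m * lam ^ m := by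
      rw [← pow_mul, ← pow_add, ← pow_add]
      congr 1
      omega
    have e2 : c₀ * lam ^ m * G.Z m (x τ) ^ 2 = c₀ * lam ^ (2 * n₀) *
        ((lam ^ (m - n₀)) ^ 2 * G.Z m (x τ) ^ 2) * (lam⁻¹) ^ m := by
      have e3 : lam ^ m * (lam⁻¹) ^ m = 1 := by
        rw [← mul_pow, mul_inv_cancel₀ hlam0.ne', one_pow]
      calc c₀ * lam ^ m * G.Z m (x τ) ^ 2
          = c₀ * lam ^ m * (lam ^ m * (lam⁻¹) ^ m) * G.Z m (x τ) ^ 2 := by rw [e3]; ring
        _ = c₀ * (lam ^ m * lam ^ m) * G.Z m (x τ) ^ 2 * (lam⁻¹) ^ m := by ring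
        _ = _ := by rw [← e1]; ring
    rw [e2]
    have h3 : (0 : ℝ) ≤ c₀ * lam ^ (2 * n₀) := by positivity
    have h4 : (0 : ℝ) ≤ (lam⁻¹) ^ m := by positivity
    calc c₀ * lam ^ (2 * n₀) * ((lam ^ (m - n₀)) ^ 2 * G.Z m (x τ) ^ 2) * (lam⁻¹) ^ m *
          |G.Y (m + 1) (x τ)|
        ≤ c₀ * lam ^ (2 * n₀) * M1 * (lam⁻¹) ^ m * √M0 := by
          refine mul_le_mul (mul_le_mul_of_nonneg_right (mul_le_mul_of_nonneg_left h1 h3) h4) h2
            (abs_nonneg _) (by positivity)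
      _ = C * (lam⁻¹) ^ m := by rw [hC]; ring
  -- continuity
  have hcon : ∀ i, ContinuousOn (fun τ => x τ i) (Icc s t) := fun i τ hτ =>
    ((hode i τ (hsub hτ)).continuousWithinAt).mono hsub
  have hconap : ∀ b n, ContinuousOn
      (fun τ => ap G.sh G.ty G.ρ b n fun i => x τ (Sum.inl i)) (Icc s t) := by
    intro b n
    have e : (fun τ => ap G.sh G.ty G.ρ b n fun i => x τ (Sum.inl i)) = fun τ =>
        ∑ i ∈ (G.fin n b).toFinset, fl G.sh G.ty G.ρ b n i * x τ (Sum.inl i) := by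
      funext τ
      unfold ap
      refine tsum_eq_sum fun i hi => ?_
      have hn : ¬ (G.sh i = n ∧ G.ty i = b) := fun h => hi ((G.fin n b).mem_toFinset.2 h)
      unfold fl
      rw [if_neg hn, zero_mul]
    rw [e]
    exact continuousOn_finsetSum _ fun i _ => continuousOn_const.mul (hcon (Sum.inl i))
  -- the inequality for the shells `≤ m`
  have key : ∀ m, n₀ ≤ m →
      ENNReal.ofReal (∑ i ∈ K1H63.NU.SS G m, x t i ^ 2) +
        2 * ∫⁻ τ in Ioc s t, ENNReal.ofReal (∑ i ∈ K1H63.NU.SS G m, G.D i * x τ i ^ 2) ≤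
      G.en (x s) + ENNReal.ofReal (2 * (C * (lam⁻¹) ^ m) * (t - s)) := by
    intro m hm
    have hcD : ContinuousOn (fun τ => ∑ i ∈ K1H63.NU.SS G m, G.D i * x τ i ^ 2) (Icc s t) :=
      continuousOn_finsetSum _ fun i hi => continuousOn_const.mul ((hcon i).pow 2)
    have hcE : ContinuousOn (fun τ => ∑ i ∈ K1H63.NU.SS G m, x τ i ^ 2) (Icc s t) :=
      continuousOn_finsetSum _ fun i hi => (hcon i).pow 2
    have hcF : ContinuousOn (fun τ => G.c m * G.Z m (x τ) ^ 2 * G.Y (m + 1) (x τ)) (Icc s t) :=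
      (continuousOn_const.mul ((hconap false m).pow 2)).mul (hconap true (m + 1))
    have hder : ∀ τ ∈ Ioo s t, HasDerivAt (fun τ => ∑ i ∈ K1H63.NU.SS G m, x τ i ^ 2)
        (-(2 * ∑ i ∈ K1H63.NU.SS G m, G.D i * x τ i ^ 2)
          - 2 * (G.c m * G.Z m (x τ) ^ 2 * G.Y (m + 1) (x τ))) τ := by
      intro τ hτ
      have h0 : τ ∈ Ico 0 T := hsub ⟨hτ.1.le, hτ.2.le⟩
      have h0' : Ico 0 T ∈ 𝓝 τ :=
        mem_of_superset (Ioo_mem_nhds (lt_of_le_of_lt hs.1 hτ.1) h0.2) Ioo_subset_Ico_self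
      have h1 : HasDerivAt (fun τ => ∑ i ∈ K1H63.NU.SS G m, x τ i ^ 2)
          (∑ i ∈ K1H63.NU.SS G m, (2 : ℕ) * x τ i ^ (2 - 1) *
            (-(G.D i * x τ i) + G.vf (x τ) i)) τ := by
        have := HasDerivAt.fun_sum (u := K1H63.NU.SS G m) (A := fun i τ => x τ i ^ 2)
          (A' := fun i => (2 : ℕ) * x τ i ^ (2 - 1) * (-(G.D i * x τ i) + G.vf (x τ) i))
          (x := τ) fun i hi => ((hode i τ h0).hasDerivAt h0').pow 2
        exact this
      refine h1.congr_deriv ?_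
      have h2 := flux G (x τ) m
      rw [hP, hP] at h2
      have h3 : ∀ i ∈ K1H63.NU.SS G m,
          (2 : ℕ) * x τ i ^ (2 - 1) * (-(G.D i * x τ i) + G.vf (x τ) i) =
          -(2 * (G.D i * x τ i ^ 2)) + 2 * (x τ i * G.vf (x τ) i) := by
        intro i _
        push_cast
        ring
      rw [Finset.sum_congr rfl h3, Finset.sum_add_distrib, ← Finset.mul_sum, h2,
        Finset.sum_neg_distrib, ← Finset.mul_sum]
      ring
    have hint : IntervalIntegrable (fun τ => -(2 * ∑ i ∈ K1H63.NU.SS G m, G.D i * x τ i ^ 2)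
        - 2 * (G.c m * G.Z m (x τ) ^ 2 * G.Y (m + 1) (x τ))) volume s t :=
      (((continuousOn_const.mul hcD).neg).sub
        (continuousOn_const.mul hcF)).intervalIntegrable_of_Icc hst
    have hftc := intervalIntegral.integral_eq_sub_of_hasDerivAt_of_le hst hcE hder hint
    have hintD : IntervalIntegrable (fun τ => -(2 * ∑ i ∈ K1H63.NU.SS G m, G.D i * x τ i ^ 2))
        volume s t := ((continuousOn_const.mul hcD).neg).intervalIntegrable_of_Icc hst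
    have hintF : IntervalIntegrable
        (fun τ => 2 * (G.c m * G.Z m (x τ) ^ 2 * G.Y (m + 1) (x τ))) volume s t :=
      (continuousOn_const.mul hcF).intervalIntegrable_of_Icc hst
    rw [intervalIntegral.integral_sub hintD hintF] at hftc
    have hF : |∫ τ in s..t, 2 * (G.c m * G.Z m (x τ) ^ 2 * G.Y (m + 1) (x τ))| ≤
        2 * (C * (lam⁻¹) ^ m) * (t - s) := by
      have h1 := intervalIntegral.norm_integral_le_of_norm_le_const (a := s) (b := t)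
        (f := fun τ => 2 * (G.c m * G.Z m (x τ) ^ 2 * G.Y (m + 1) (x τ)))
        (C := 2 * (C * (lam⁻¹) ^ m)) (by
          intro τ hτ
          rw [uIoc_of_le hst] at hτ
          have h2 := hfl τ ⟨hτ.1.le, hτ.2⟩ m hm
          rw [Real.norm_eq_abs, abs_mul, abs_two]
          linarith)
      rwa [Real.norm_eq_abs, abs_of_nonneg (by linarith : 0 ≤ t - s)] at h1
    rw [intervalIntegral.integral_of_le hst] at hftc
    have hint2 : IntegrableOn (fun τ => ∑ i ∈ K1H63.NU.SS G m, G.D i * x τ i ^ 2) (Ioc s t)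
        volume := (hcD.integrableOn_Icc).mono_set Ioc_subset_Icc_self
    rw [integral_neg, integral_const_mul] at hftc
    have hds : ∫⁻ τ in Ioc s t, ENNReal.ofReal (∑ i ∈ K1H63.NU.SS G m, G.D i * x τ i ^ 2) =
        ENNReal.ofReal (∫ τ in Ioc s t, ∑ i ∈ K1H63.NU.SS G m, G.D i * x τ i ^ 2) :=
      (ofReal_integral_eq_lintegral_ofReal hint2
        (Eventually.of_forall fun τ => Finset.sum_nonneg fun i _ =>
          mul_nonneg (D_nonneg G i) (sq_nonneg _))).symm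
    have hI : 0 ≤ ∫ τ in Ioc s t, ∑ i ∈ K1H63.NU.SS G m, G.D i * x τ i ^ 2 :=
      integral_nonneg fun τ => Finset.sum_nonneg fun i _ =>
        mul_nonneg (D_nonneg G i) (sq_nonneg _)
    have hEs : ENNReal.ofReal (∑ i ∈ K1H63.NU.SS G m, x s i ^ 2) ≤ G.en (x s) := by
      rw [ENNReal.ofReal_sum_of_nonneg fun i _ => sq_nonneg _]
      exact ENNReal.sum_le_tsum _
    have hC0 : 0 ≤ 2 * (C * (lam⁻¹) ^ m) * (t - s) := by
      have : 0 ≤ C := by rw [hC]; positivity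
      have h2 : 0 ≤ t - s := by linarith
      positivity
    refine le_trans ?_ (add_le_add hEs le_rfl)
    have h2 : (2 : ℝ≥0∞) = ENNReal.ofReal 2 := by simp
    rw [hds, h2, ← ENNReal.ofReal_mul (by norm_num), ← ENNReal.ofReal_add
      (Finset.sum_nonneg fun i _ => sq_nonneg _) (by positivity), ← ENNReal.ofReal_add
      (Finset.sum_nonneg fun i _ => sq_nonneg _) hC0]
    refine ENNReal.ofReal_le_ofReal ?_
    have h3 := neg_le_of_abs_le hF
    linarith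
  -- the limit
  have hL : Tendsto (fun m => ENNReal.ofReal (∑ i ∈ K1H63.NU.SS G m, x t i ^ 2) +
        2 * ∫⁻ τ in Ioc s t, ENNReal.ofReal (∑ i ∈ K1H63.NU.SS G m, G.D i * x τ i ^ 2)) atTop
      (𝓝 (G.en (x t) + 2 * ∫⁻ τ in Ioc s t, G.ds (x τ))) := by
    refine (en_tendsto G (x t)).add (ENNReal.Tendsto.const_mul ?_ (Or.inr ENNReal.ofNat_ne_top))
    refine lintegral_tendsto_of_tendsto_of_monotone (fun m => ?_)
      (Eventually.of_forall fun τ => ?_) (Eventually.of_forall fun τ => ds_tendsto G (x τ))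
    · have hcD : ContinuousOn (fun τ => ∑ i ∈ K1H63.NU.SS G m, G.D i * x τ i ^ 2) (Ioc s t) :=
        continuousOn_finsetSum _ fun i hi =>
          continuousOn_const.mul (((hcon i).mono Ioc_subset_Icc_self).pow 2)
      exact (hcD.aemeasurable measurableSet_Ioc).ennreal_ofReal
    · intro a b hab
      exact ENNReal.ofReal_le_ofReal (Finset.sum_le_sum_of_subset_of_nonneg (SS_mono G hab)
        fun i _ _ => mul_nonneg (D_nonneg G i) (sq_nonneg _))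
  have hR : Tendsto (fun m : ℕ => G.en (x s) + ENNReal.ofReal (2 * (C * (lam⁻¹) ^ m) * (t - s)))
      atTop (𝓝 (G.en (x s))) := by
    have h1 : Tendsto (fun m : ℕ => 2 * (C * (lam⁻¹) ^ m) * (t - s)) atTop (𝓝 0) := by
      have h2 := tendsto_pow_atTop_nhds_zero_of_lt_one (inv_nonneg.2 hlam0.le)
        (inv_lt_one_of_one_lt₀ hl)
      have h3 := ((h2.const_mul C).const_mul 2).mul_const (t - s)
      simpa using h3
    have h4 := (ENNReal.tendsto_ofReal h1)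
    rw [ENNReal.ofReal_zero] at h4
    have h5 := (tendsto_const_nhds (x := G.en (x s))).add h4
    rwa [add_zero] at h5
  exact le_of_tendsto_of_tendsto hL hR (eventually_atTop.2 ⟨n₀, key⟩)

end Pool.Agent.K1H29.NU
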